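import Pool.Agent.Lib.DI.Defs
import Pool.Agent.Lib.FW.RDefs

/-!
# Theorem DI: the interface between the parts

Every `S_...` is a statement which is proved by ONE part and used by others. Nothing is proved here.
Notes: 4042 (overview, F), 4044 (F4), 4046 (V), 4048 (C), 4050 (B, D), 4051 (E), 4052 (G), 4054 (H, I).
A false or awkward statement: mail helper36 at once.

Part V: `DI/V`. Part F: the interfaces between `F1`-`F3` (helper79), `F4`, `F6` (helper12), `F5` (helper39)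
are in `DI/F` and `DI/F5`. Valuation rings `VP, MP, UP`: basic facts in `DI/Val.lean` (helper9).

General conventions. `Lat z`: `z` is in the lattice `O`; `Tor z`: `z` is in `K`. `XC, YC, EC` are the
complex functions, `xO, yO, eO, zO` their values in `Om` at torsion points (`XC = 1/4`, `YC = -1/8`,
`EC = 0` at lattice points, by the conventions of Mathlib). `f` is odd and `7 ∣ f`.
-/

open scoped Pointwise Topology nonZeroDivisors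
open Filter

noncomputable section

namespace Pool.Agent.DI

open Pool.Agent.MuZ Pool.Agent.FW NumberField IsDedekindDomain

/-! ## More definitions -/

/-- `π̄` in `ℂ`. -/
def wbC : ℂ := 1 - wC

/-- `π̄` in `Om`. -/
def wbO : Om := 1 - wO

/-- `√-7` in `ℂ`. -/
def rC : ℂ := 2 * wC - 1

/-- `√-7` in `Om`. -/
def rO : Om := 2 * wO - 1

/-- A complete system of representatives of `μ⁻¹ O / O`. -/
structure IsSys (μ : OO) (R : Finset ℂ) : Prop where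
  mem : ∀ u ∈ R, Lat (toC μ * u)
  ex : ∀ z : ℂ, Lat (toC μ * z) → ∃ u ∈ R, Lat (z - u)
  uni : ∀ u ∈ R, ∀ u' ∈ R, Lat (u - u') → u = u'

/-- The sum of an `m`-periodic function over `O / m`. -/
def sumO {R : Type} [AddCommMonoid R] (m : ℕ) (F : OO → R) : R :=
  ∑ a ∈ Finset.range m, ∑ b ∈ Finset.range m, F ⟨a, b⟩

/-- `ρ` is `f`-periodic and odd. -/
structure IsRho {R : Type} [AddCommGroup R] (f : ℕ) (ρ : OO → R) : Prop where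
  per : ∀ v u : OO, ρ (v + f * u) = ρ v
  odd : ∀ v : OO, ρ (-v) = -ρ v

/-- The root of unity `exp(2 π i / n)` in `Om`. -/
def zet (n : ℕ) : Om := ofC (ex (1 / n))

/-- The two orders of the primes above `2`. -/
def Pr2 (a b : OO) : Prop := (a = pO ∧ b = pbO) ∨ (a = pbO ∧ b = pO)

/-- `P` is a nonzero prime of `ZZ`. -/
def Npr (P : Ideal ZZ) : Prop := P.IsPrime ∧ P ≠ ⊥

/-- The kernel of reduction, primes above `2` (model `X`). -/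
def I2 (P : Ideal ZZ) (z : ℂ) : Prop := Tor z ∧ (Lat z ∨ ¬ VP P (xO z))

/-- The kernel of reduction, primes not above `2` (model `Z`). -/
def IZ (P : Ideal ZZ) (z : ℂ) : Prop := Tor z ∧ (Lat z ∨ ¬ VP P (zO z))

/-- `z` is `Q`-primary: if `α β` kills `z` and `α` is not in `Q` then `β` kills `z`. -/
def Qp (Q : Ideal ZZ) (z : ℂ) : Prop :=
  ∀ α β : OO, ¬ MP Q (toO α) → Lat (toC (α * β) * z) → Lat (toC β * z)

/-- `τ` is a Frobenius element at `Q` for the exponent `l`. -/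
def Fro (Q : Ideal ZZ) (l : ℕ) (τ : Gal(Om/ℚ)) : Prop := ∀ b : ZZ, τ • b - b ^ l ∈ Q

/-- `(a b; c d)` with determinant `1`, `c` divisible by `M`. -/
def G0 (M : ℤ) (a b c d : ℤ) : Prop := a * d - b * c = 1 ∧ M ∣ c

/-! ## Part B: elliptic functions over `ℂ` (helper46) -/

/-- Lattice points, nonvanishing of `Ω`. -/
def S_B0 : Prop := OmC ≠ 0 ∧ ∀ z, Lat z → XC z = 1 / 4 ∧ YC z = -1 / 8 ∧ EC z = 0

/-- The curve. -/
def S_B1 : Prop :=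
  ∀ z, ¬ Lat z → YC z ^ 2 + XC z * YC z = XC z ^ 3 - XC z ^ 2 - 2 * XC z - 1

/-- Periods and parity (also at lattice points). -/
def S_B2 : Prop :=
  (∀ (z : ℂ) (v : OO), XC (z + toC v) = XC z ∧ YC (z + toC v) = YC z ∧ EC (z + toC v) = EC z) ∧
    ∀ z : ℂ, XC (-z) = XC z ∧ YC (-z) = -XC z - YC z ∧ EC (-z) = -EC z

/-- Injectivity and surjectivity. -/
def S_B3 : Prop :=
  (∀ z z' : ℂ, ¬ Lat z → ¬ Lat z' → (XC z = XC z' ↔ Lat (z - z') ∨ Lat (z + z'))) ∧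
    (∀ z : ℂ, ¬ Lat z → (2 * YC z + XC z = 0 ↔ Lat (2 * z))) ∧
    ∀ x y : ℂ, y ^ 2 + x * y = x ^ 3 - x ^ 2 - 2 * x - 1 → ∃ z, ¬ Lat z ∧ XC z = x ∧ YC z = y

/-- Addition. -/
def S_B4 : Prop :=
  ∀ z z' : ℂ, ¬ Lat z → ¬ Lat z' → XC z ≠ XC z' →
    ∀ l : ℂ, l = (YC z - YC z') / (XC z - XC z') →
      XC (z + z') = l ^ 2 + l + 1 - XC z - XC z' ∧
      YC (z + z') = -(l + 1) * XC (z + z') - (YC z - l * XC z) ∧
      EC (z + z') = EC z + EC z' + l + 1 / 2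

/-- Duplication. -/
def S_B5 : Prop :=
  ∀ z : ℂ, ¬ Lat z → ¬ Lat (2 * z) →
    ∀ l : ℂ, l = (3 * XC z ^ 2 - 2 * XC z - 2 - YC z) / (2 * YC z + XC z) →
      XC (2 * z) = l ^ 2 + l + 1 - 2 * XC z ∧
      YC (2 * z) = -(l + 1) * XC (2 * z) - (YC z - l * XC z) ∧
      EC (2 * z) = 2 * EC z + l + 1 / 2

/-- The isogenies `π` and `π̄`. -/
def S_B6 : Prop :=
  ∀ p pb : ℂ, (p = wC ∧ pb = wbC) ∨ (p = wbC ∧ pb = wC) → ∀ z : ℂ, ¬ Lat z → ¬ Lat (p * z) →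
    p ^ 2 * XC z - pb ≠ 0 ∧ XC (p * z) * (p ^ 2 * XC z - pb) = XC z ^ 2 - p ∧
    YC (p * z) * (p ^ 2 * XC z - pb) ^ 2 =
      YC z * (p * XC z ^ 2 - pb ^ 2 * XC z + p ^ 2) + XC z ^ 3 + XC z ^ 2 - 2 * XC z - 1

/-- The points of order two; translation by the point `1/p`. -/
def S_B7 : Prop :=
  XC (1 / 2) = 2 ∧ ∀ p pb : ℂ, (p = wC ∧ pb = wbC) ∨ (p = wbC ∧ pb = wC) →
    XC (1 / p) = pb / p ^ 2 ∧ ∀ z : ℂ, ¬ Lat z → ¬ Lat (p * z) →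
      XC (z + 1 / p) * (p ^ 2 * XC z - pb) = pb * XC z - p ^ 3

/-- The points of order `√-7`. -/
def S_B8 : Prop :=
  ∀ z : ℂ, ¬ Lat z → Lat (rC * z) → XC z ^ 3 + XC z ^ 2 - 2 * XC z - 1 = 0 ∧
    (2 * YC z + XC z = -rC * XC z ∨ 2 * YC z + XC z = rC * XC z)

/-- At `z = j/√-7`, `j` a square modulo `7`: `2 Y + X = s √-7 X` with a constant sign `s` (in fact
`s = -1`, not needed). -/
def S_B9 : Prop :=
  ∃ s : ℤ, (s = 1 ∨ s = -1) ∧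
    ∀ j : ℤ, jacobiSym j 7 = 1 → 2 * YC (j / rC) + XC (j / rC) = s * rC * XC (j / rC)

/-- Distribution of `E_1`. -/
def S_B10 : Prop :=
  ∀ (μ : OO) (R : Finset ℂ), μ ≠ 0 → IsSys μ R → ∀ z : ℂ, ¬ Lat (toC μ * z) →
    ∑ u ∈ R, EC (z + u) = toC μ * EC (toC μ * z)

/-- The limit which defines `E_1`. -/
def S_B11 : Prop :=
  ∀ z : ℂ, ¬ Lat z → Tendsto (fun t => KtC t z) (𝓝[>] 0) (𝓝 (OmC * EC z))

/-- Complex conjugation. -/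
def S_B12 : Prop :=
  ∃ s : ℤ, (s = 1 ∨ s = -1) ∧ (starRingEnd ℂ) OmC = s * OmC ∧ ∀ z : ℂ,
    (starRingEnd ℂ) (XC z) = XC ((starRingEnd ℂ) z) ∧
    (starRingEnd ℂ) (YC z) = YC (s * (starRingEnd ℂ) z) ∧
    (starRingEnd ℂ) (EC z) = EC (s * (starRingEnd ℂ) z)

/-- Algebraicity. -/
def S_B13 : Prop :=
  ∀ z : ℂ, Tor z → IsAlgebraic ℚ (XC z) ∧ IsAlgebraic ℚ (YC z) ∧ IsAlgebraic ℚ (EC z)

/-- Derivative and analyticity. -/
def S_B14 : Prop :=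
  ∀ z : ℂ, ¬ Lat z → AnalyticAt ℂ XC z ∧ AnalyticAt ℂ YC z ∧
    HasDerivAt XC (OmC * (2 * YC z + XC z)) z

open Classical in
/-- The product formula (D6); exactly one element of `R` is in the lattice. -/
def S_B15 : Prop :=
  ∀ (α : OO) (R : Finset ℂ), IsCoprime α 2 → IsSys α R → ∀ T : ℂ, Lat (2 * T) → ¬ Lat T →
    ∃ c : ℂ, c ≠ 0 ∧ (∀ z : ℂ, ¬ Lat (toC α * z) →
      ∏ u ∈ R, (XC (z + u) - XC T) = c * (XC (toC α * z) - XC T)) ∧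
      c = toC α ^ 2 * ∏ u ∈ R, (if Lat u then 1 else XC u - XC T)

/-- The distribution of the theta function (D12), over `ℂ`; `th` is `∏ (X(z) - X(u))⁻¹`. -/
def S_B16 : Prop :=
  ∀ (α μ : OO) (R S : Finset ℂ), α ≠ 0 → IsCoprime α μ → IsCoprime μ 2 → IsSys α R → IsHalf μ S →
    ∃ c : ℂ, c ≠ 0 ∧ ∀ z : ℂ, ¬ Lat (toC (α * μ) * z) →
      ∏ v ∈ R, ∏ u ∈ S, (XC (z + v) - XC u)⁻¹ = c * ∏ u ∈ S, (XC (toC α * z) - XC u)⁻¹

/-! ## Part B, algebraic versions in `Om` (helper46) -/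

/-- The values. -/
def S_A0 : Prop := ∀ z : ℂ, Tor z → io (xO z) = XC z ∧ io (yO z) = YC z ∧ io (eO z) = EC z

/-- Complex conjugation on `Om`. -/
def S_A1 : Prop := ∃ c : Gal(Om/ℚ), ∀ x : Om, io (c x) = (starRingEnd ℂ) (io x)

/-- Roots of unity. -/
def S_A2 : Prop := ∀ n : ℕ, 0 < n → io (zet n) = ex (1 / n) ∧ IsPrimitiveRoot (zet n) n

/-! ## Part C: theta series (helper33) -/

/-- (0.6) and the transformation of `h`. -/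
def S_C1 : Prop :=
  ∀ f : ℕ, Odd f → 7 ∣ f → ∀ ρ : OO → ℂ, IsRho f ρ → ∀ a b c d : ℤ, G0 (7 * f ^ 2) a b c d →
    ∃ Φ : ℂ, (∀ z : ℂ, 0 < z.im →
      Th ρ ((a * z + b) / (c * z + d)) = eps d * Th (fun v => ρ (d * v)) z + Φ) ∧
      ∀ r : ℚ, c * r + d ≠ 0 →
        hC ρ ((a * r + b) / (c * r + d)) = eps d * hC (fun v => ρ (d * v)) r + Φ

/-- (0.7). -/
def S_C2 : Prop :=
  ∀ f : ℕ, Odd f → 7 ∣ f → ∀ ρ : OO → ℂ, IsRho f ρ → ∀ a b c d : ℤ, a * d - b * c = 1 →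
    ∃ (c0 : ℂ) (cf : ℕ → ℂ) (C : ℝ), (∀ n, ‖cf n‖ ≤ C * (n + 1) ^ 3) ∧ ∀ z : ℂ, 0 < z.im →
      HasSum (fun n : ℕ => cf n * ex ((n + 1) * z / (7 * f ^ 2)))
        (Th ρ ((a * z + b) / (c * z + d)) - c0)

/-- (0.8). The sum is over `O / f n`. -/
def S_C3 : Prop :=
  ∀ f : ℕ, Odd f → 7 ∣ f → ∀ ρ : OO → ℂ, IsRho f ρ → ∀ (b : ℤ) (n : ℕ), 0 < n →
    Tendsto (fun y : ℝ => Th ρ (((b / n : ℚ) : ℂ) + y * Complex.I)) (𝓝[>] 0) (𝓝 (hC ρ (b / n))) ∧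
    hC ρ (b / n) = OmC / (2 * f * n) *
      sumO (f * n) (fun v => ρ v * ex (b * Nm v / n) * EC (toC v / (f * n : ℕ)))

/-- (0.9) for `h`, class functions `ρ = ε κ`. -/
def S_C4 : Prop :=
  ∀ f : ℕ, Odd f → 7 ∣ f → ∀ ρ : OO → ℂ, IsRho f ρ → ∀ r : ℚ,
    hC ρ (r / 2) + hC ρ ((r + 1) / 2) + hC (fun v => ρ (2 * v)) (2 * r) =
      wbC * hC (fun v => ρ (pO * v)) r + wC * hC (fun v => ρ (pbO * v)) r

/-- (0.10) and periodicity. -/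
def S_C5 : Prop :=
  ∀ f : ℕ, Odd f → 7 ∣ f → ∀ ρ : OO → ℂ, IsRho f ρ → ∀ r : ℚ,
    hC ρ (r + 1) = hC ρ r ∧
    (starRingEnd ℂ) (hC ρ r) = hC (fun v => (starRingEnd ℂ) (ρ (cjO v))) (-r)

/-- The series converges, is holomorphic, and small at infinity. -/
def S_C6 : Prop :=
  ∀ f : ℕ, Odd f → 7 ∣ f → ∀ ρ : OO → ℂ, IsRho f ρ →
    DifferentiableOn ℂ (Th ρ) {z | 0 < z.im} ∧
    (∀ z : ℂ, 0 < z.im → Summable (fun v : OO => ρ v / toC v * ex (Nm v * z))) ∧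
    ∃ C : ℝ, ∀ z : ℂ, 1 ≤ z.im → ‖Th ρ z‖ ≤ C * Real.exp (-2 * Real.pi * z.im)

/-! ## Part D: reduction (helper62) -/

/-- Primes above `2`: the kernel of reduction. -/
def S_D1 : Prop :=
  ∀ a b : OO, Pr2 a b → ∀ P : Ideal ZZ, Npr P → MP P (toO a) →
    (∀ z z' : ℂ, I2 P z → I2 P z' → I2 P (z + z')) ∧
    (∀ (v : OO) (z : ℂ), I2 P z → I2 P (toC v * z)) ∧
    (∀ z : ℂ, I2 P z → Qp P z) ∧
    (∀ z z' : ℂ, Tor z → ¬ I2 P z → I2 P z' → MP P (xO (z + z') - xO z)) ∧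
    (∀ z z' : ℂ, Tor z → Tor z' → ¬ I2 P z → ¬ I2 P z' → MP P (xO z - xO z') →
      I2 P (z + z') ∨ I2 P (z - z')) ∧
    (∀ z : ℂ, Tor z → ¬ I2 P z → VP P (yO z)) ∧
    (∀ z : ℂ, Tor z → ¬ I2 P z → ¬ I2 P (toC a * z) ∧ MP P (xO (toC a * z) - xO z ^ 2)) ∧
    I2 P (1 / toC a) ∧ ¬ I2 P (1 / toC b) ∧ ¬ I2 P (1 / 2)

/-- Primes not above `2`: the kernel of reduction. -/
def S_D2 : Prop :=
  ∀ Q : Ideal ZZ, Npr Q → ¬ MP Q 2 →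
    (∀ z z' : ℂ, IZ Q z → IZ Q z' → IZ Q (z + z')) ∧
    (∀ (v : OO) (z : ℂ), IZ Q z → IZ Q (toC v * z)) ∧
    (∀ z : ℂ, IZ Q z → Qp Q z) ∧
    (∀ z z' : ℂ, Tor z → ¬ IZ Q z → IZ Q z' → MP Q (zO (z + z') - zO z)) ∧
    ∀ z z' : ℂ, Tor z → Tor z' → ¬ IZ Q z → ¬ IZ Q z' → MP Q (zO z - zO z') →
      IZ Q (z + z') ∨ IZ Q (z - z')

/-- Primes above an odd prime element of degree one. -/
def S_D3 : Prop :=
  ∀ (la : OO) (l : ℕ), l.Prime → l ≠ 2 → l ≠ 7 → Nm la = l → ∀ Q : Ideal ZZ, Npr Q →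
    MP Q (toO la) → ∀ u : ℂ, Lat (toC la * u) → ¬ Lat u →
      IZ Q u ∧ UP Q (toO la * zO u ^ ((l - 1) / 2))

/-- Frobenius congruence. -/
def S_D4 : Prop :=
  ∀ (la : OO) (l : ℕ), l.Prime → l ≠ 2 → l ≠ 7 → Nm la = l → ∀ Q : Ideal ZZ, Npr Q →
    MP Q (toO la) → ∀ z : ℂ, Tor z → ¬ IZ Q z →
      ¬ IZ Q (toC la * z) ∧ MP Q (zO (toC la * z) - zO z ^ l)

/-- Theta units. -/
def S_D5 : Prop :=
  ∀ (μ : OO) (S : Finset ℂ), IsCoprime μ 2 → IsHalf μ S → ∀ Q : Ideal ZZ, Npr Q → ∀ z : ℂ, Tor z →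
    (∀ u : ℂ, Lat (toC μ * u) → ¬ Qp Q (z + u)) → UP Q (Theta μ S z)

/-- Theta units: congruences. -/
def S_D6 : Prop :=
  ∀ (μ : OO) (S : Finset ℂ), IsCoprime μ 2 → IsHalf μ S → ∀ Q : Ideal ZZ, Npr Q → ¬ MP Q 2 →
    ¬ MP Q (toO μ) → ∀ z : ℂ, Tor z → (∀ u : ℂ, Lat (toC μ * u) → ¬ Qp Q (z + u)) →
    (∀ z' : ℂ, IZ Q z' → MP Q (Theta μ S (z + z') - Theta μ S z)) ∧
    ∀ (la : OO) (l : ℕ), l.Prime → l ≠ 2 → l ≠ 7 → Nm la = l → MP Q (toO la) →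
      MP Q (Theta μ S (toC la * z) - Theta μ S z ^ l)

/-- Distribution of `Theta`; the constant is a unit everywhere (take a `z` of order `p p'`, two primes
which do not divide `α μ`, and use `S_D5`). -/
def S_D7 : Prop :=
  ∀ (μ : OO) (S : Finset ℂ), IsCoprime μ 2 → IsHalf μ S → ∀ α : OO, α ≠ 0 → IsCoprime α μ →
    ∃ c : Om, c ≠ 0 ∧ (∀ Q : Ideal ZZ, Npr Q → UP Q c) ∧
      ∀ (R : Finset ℂ), IsSys α R → ∀ z : ℂ, Tor z → ¬ Lat (toC (α * μ) * z) →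
        ∏ v ∈ R, Theta μ S (z + v) = c * Theta μ S (toC α * z)

/-- `Theta` is a well defined, even function and does not depend on the half system. -/
def S_D8 : Prop :=
  ∀ (μ : OO) (S S' : Finset ℂ), IsHalf μ S → IsHalf μ S' → ∀ z : ℂ, Tor z →
    Theta μ S' z = Theta μ S z ∧ Theta μ S (-z) = Theta μ S z ∧
    (∀ v : OO, Theta μ S (z + toC v) = Theta μ S z) ∧
    (¬ Lat (toC μ * z) → Theta μ S z ≠ 0)

/-! ## Part E: Galois action (E1 - E6 helper30, E7 - E8 helper17) -/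

/-- The action on torsion points is the multiplication by a number. -/
def S_E1 : Prop :=
  (∀ τ ∈ GK, ∀ N : ℕ, 0 < N → ∃ a : OO, Psi τ N a) ∧
    ∀ (τ : Gal(Om/ℚ)) (N : ℕ) (a a' : OO), 0 < N → Psi τ N a → Psi τ N a' → (N : OO) ∣ a - a'

/-- Frobenius elements, odd degree one primes. -/
def S_E2 : Prop :=
  ∀ (la : OO) (l : ℕ), l.Prime → l ≠ 2 → l ≠ 7 → Nm la = l → ∀ Q : Ideal ZZ, Npr Q →
    MP Q (toO la) → ∀ τ ∈ GK, Fro Q l τ → ∀ N : ℕ, 0 < N → l.Coprime N →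
      Psi τ N la ∨ Psi τ N (-la)

/-- Frobenius elements at the primes above `2`. -/
def S_E3 : Prop :=
  ∀ a b : OO, Pr2 a b → ∀ P : Ideal ZZ, Npr P → MP P (toO a) → ∀ τ ∈ GK, Fro P 2 τ →
    ∀ N : ℕ, Odd N → Psi τ N a ∨ Psi τ N (-a)

/-- Inertia: it acts as `±1` on the torsion prime to `Q` (a modulus `δ` in `O`, or an integer `N`). -/
def S_E4 : Prop :=
  ∀ Q : Ideal ZZ, Npr Q → ∀ τ ∈ GK, τ ∈ Q.inertia Gal(Om/ℚ) →
    (∀ δ : OO, ¬ MP Q (toO δ) → ∀ z : ℂ, Lat (toC δ * z) → τ (xO z) = xO z) ∧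
    ∀ N : ℕ, 0 < N → ¬ MP Q N → Psi τ N 1 ∨ Psi τ N (-1)

/-- Normalisation at `√-7`. -/
def S_E5 : Prop :=
  ∀ τ ∈ GK, ∀ (N : ℕ) (a : OO), 0 < N → 7 ∣ N → Psi τ N a → eps a = 1

/-- The cyclotomic character. -/
def S_E6 : Prop :=
  ∀ τ ∈ GK, ∀ (N : ℕ) (a : OO), 0 < N → Psi τ N a → ∀ ζ : Om, ζ ^ N = 1 →
    τ ζ = ζ ^ (Nm a).toNat

/-- Surjectivity. -/
def S_E7 : Prop :=
  ∀ (N : ℕ) (a : OO), 0 < N → Cop a N → ∃ τ ∈ GK, Psi τ N a ∨ Psi τ N (-a)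

/-- Galois theory for `FixH`, for the groups `H` of residue classes which contain `-1`. -/
def S_E8 : Prop :=
  ∀ (N : ℕ) (H : OO → Prop), 0 < N → H (-1) → (∀ v, H v → Cop v N) → (∀ v u, H v → H (v + N * u)) →
    (∀ v u, H v → H u → H (v * u)) →
    FiniteDimensional ℚ (FixH N H) ∧ KQ ≤ FixH N H ∧
    ∀ τ ∈ GK, ∀ a : OO, Psi τ N a → ((∀ x ∈ FixH N H, τ x = x) ↔ H a)

/-- `L` and `L_n` are normal over `ℚ`, `L` is unramified at `2`, `L_n` is totally complex. -/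
def S_E9 : Prop :=
  ∀ f : ℕ, Odd f → 7 ∣ f →
    (∀ τ : Gal(Om/ℚ), ∀ x ∈ Lf f, τ x ∈ Lf f) ∧
    (∀ (N : ℕ) (τ : Gal(Om/ℚ)), ∀ x ∈ Ln f N, τ x ∈ Ln f N) ∧
    (∀ P : Ideal ZZ, Npr P → MP P 2 → ∀ τ ∈ P.inertia Gal(Om/ℚ), ∀ x ∈ Lf f, τ x = x) ∧
    (∀ P : Ideal ZZ, Npr P → MP P 2 → ∀ τ ∈ GK, (∀ x ∈ Lf f, VP P x → MP P (τ x - x)) →
      ∀ x ∈ Lf f, τ x = x)

/-- Galois action on `Theta` and the constant of `S_D7`. -/
def S_E15 : Prop :=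
  ∀ (μ : OO) (S : Finset ℂ), IsCoprime μ 2 → IsHalf μ S →
    (∀ τ ∈ GK, ∀ (M : ℕ) (a v : OO), 0 < M → Psi τ (M * (Nm μ).toNat) a →
      τ (Theta μ S (toC v / M)) = Theta μ S (toC (a * v) / M)) ∧
    ∀ (α : OO) (c : Om), α ≠ 0 → IsCoprime α μ →
      (∀ (R : Finset ℂ), IsSys α R → ∀ z : ℂ, Tor z → ¬ Lat (toC (α * μ) * z) →
        ∏ v ∈ R, Theta μ S (z + v) = c * Theta μ S (toC α * z)) → c ∈ KQ

/-- E1-values: Galois action and integrality (odd order). -/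
def S_E10 : Prop :=
  ∀ (n : ℕ) (v : OO), Odd n → ¬ Lat (toC v / n) →
    (∀ τ ∈ GK, ∀ a : OO, Psi τ n a → τ (eO (toC v / n)) = eO (toC (a * v) / n)) ∧
    ∀ P : Ideal ZZ, Npr P → MP P 2 → VP P (eO (toC v / n) + 1 / 2)

/-- `η` in terms of `E_1`. -/
def S_E11 : Prop :=
  ∀ f : ℕ, Odd f → 7 ∣ f → ∀ ρ : OO → Om, IsRho f ρ → ∀ (b : ℤ) (n : ℕ), 0 < n →
    io (eta ρ (b / n)) * OmC = hC (fun v => io (ρ v)) (b / n) ∧
    eta ρ (b / n) = 1 / (2 * f * n) *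
      sumO (f * n) (fun v => ρ v * zet n ^ (b * Nm v) * eO (toC v / (f * n : ℕ)))

/-- The functional equations of `η_χ`. -/
def S_E12 : Prop :=
  ∀ (f : ℕ) (χ : OO → Om), Odd f → 7 ∣ f → IsChi f χ →
    (∀ a b c d : ℤ, G0 (7 * f ^ 2) a b c d → ∀ r : ℚ, c * r + d ≠ 0 →
      etaX χ ((a * r + b) / (c * r + d)) = χ d * etaX χ r + etaX χ (b / d) - χ d * etaX χ 0) ∧
    (∀ r : ℚ, etaX χ (r + 1) = etaX χ r) ∧
    ∀ r : ℚ, etaX χ (r / 2) + etaX χ ((r + 1) / 2) + χ 2 * etaX χ (2 * r) =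
      (wbO * χ pO + wO * χ pbO) * etaX χ r

/-- Integrality and field of definition of `η_χ`, `χ ≠ 1`. -/
def S_E13 : Prop :=
  ∀ (f : ℕ) (χ : OO → Om), Odd f → 7 ∣ f → IsChi f χ → (∃ v, Cop v f ∧ χ v ≠ 1) →
    ∀ r : ℚ, r.den.Coprime f →
      (∀ P : Ideal ZZ, Npr P → MP P 2 → VP P (etaX χ r)) ∧
      ∀ τ ∈ GK, (∀ x ∈ Lf f, τ x = x) → (∀ v, τ (χ v) = χ v) → τ (etaX χ r) = etaX χ r

/-- The periods of `Γ_1(M)` (0.11): a function `lam` on the pairs `(b, d)` with values in `L`, integral at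
the primes above `2`, such that the period of `Th_ρ`, `ρ = ε κ` (`κ` a class function on `Δ` with values
in `Om`) is `Ω ∑ κ(δ) σ_δ(lam)`. The sum over `Δ` is written as the sum over `O / f` of the `κ(v) σ_v(lam)`,
`v` prime to `f`, divided by the order of `H_f`; `σ` is a function with `Psi (σ v) f v` or
`Psi (σ v) f (-v)`. -/
def S_E14 : Prop :=
  ∀ f : ℕ, Odd f → 7 ∣ f → ∃ lam : ℤ → ℤ → Om,
    (∀ b d : ℤ, lam b d ∈ Lf f ∧ ∀ P : Ideal ZZ, Npr P → MP P 2 → VP P (lam b d)) ∧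
    ∀ (κ : OO → Om) (σ : OO → Gal(Om/ℚ)), (∀ v u, κ (v + f * u) = κ v) →
      (∀ v h, Hf f h → κ (h * v) = κ v) → (∀ v, ¬ Cop v f → κ v = 0) →
      (∀ v, Cop v f → σ v ∈ GK ∧ (Psi (σ v) f v ∨ Psi (σ v) f (-v))) →
      ∀ a b c d : ℤ, G0 (7 * f ^ 2) a b c d → (7 * f ^ 2 : ℤ) ∣ d - 1 → ∀ z : ℂ, 0 < z.im →
        sumO f (fun v => by
          classical exact if Hf f v then (1 : ℂ) else 0) *
          (Th (fun v => eps v * io (κ v)) ((a * z + b) / (c * z + d)) -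
            Th (fun v => eps v * io (κ v)) z) =
        OmC * io (sumO f (fun v => by
          classical exact if Cop v f then κ v * σ v (lam b d) else 0))

/-! ## Part V (helper97): see `DI/V/Spec.lean` (structure `DI.V.Sy`, over any field). -/

/-! ## Part F (helper79, helper12, helper39) -/

/-- **Proposition F.** For every `χ`: the function `η_χ(r) + η_χ(-r)` modulo `P` is not constant on the
`Γ_1(M)`-orbit of `0`. -/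
def S_F : Prop :=
  ∀ (f : ℕ) (χ : OO → Om) (P : Ideal ZZ), Odd f → 7 ∣ f → IsChi f χ → AbPi P →
    ∃ a b c d : ℤ, G0 (7 * f ^ 2) a b c d ∧ (7 * f ^ 2 : ℤ) ∣ d - 1 ∧
      ¬ MP P (etaX χ (b / d) + etaX χ (-(b / d)) - 2 * etaX χ 0)

/-! ## Part G (helper81) -/

/-- **Output of Part G** (G9). For every `χ ≠ 1` and `P` above `π`: there are `μ` prime to `2 f`, a half
system `S` of `E[μ]`, a level `N ≥ 3`, representatives `T`, an element `v0`, and an element `d` of the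
decomposition group of `P`, fixing all `L_n` and `i`, such that
`∑_δ χ(δ) kap_(u^(v_δ v0))(d)` is not `0` modulo `P`. The sum is over a system `D` of representatives `v_δ`
of `Δ = (O/f)^* / H_f`, `v_δ = 1` modulo `2^N`. -/
def S_G : Prop :=
  ∀ (f : ℕ) (χ : OO → Om) (P : Ideal ZZ), Odd f → 7 ∣ f → IsChi f χ → AbPi P →
    (∃ v, Cop v f ∧ χ v ≠ 1) →
    ∃ (μ : OO) (S : Finset ℂ) (N : ℕ) (T : Finset OO) (v0 : OO) (d : Gal(Om/ℚ)),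
      Cop μ (2 * f) ∧ IsHalf μ S ∧ 3 ≤ N ∧ IsRep f N T ∧ Cop v0 (2 * f) ∧
      (∀ x : ZZ, x ∈ P → d • x ∈ P) ∧ (∀ n : ℕ, ∀ x ∈ Ln f n, d x = x) ∧
      (∀ i : Om, i ^ 2 = -1 → d i = i) ∧
      ∀ D : Finset OO, (∀ v ∈ D, Cop v (2 * f) ∧ ((2 ^ N : ℕ) : OO) ∣ v - 1) →
        (∀ v : OO, Cop v f → ∃ u ∈ D, ∃ h, Hf f h ∧ (f : OO) ∣ v - h * u) →
        (∀ u ∈ D, ∀ u' ∈ D, (∃ h, Hf f h ∧ (f : OO) ∣ u' - h * u) → u = u') →
        ¬ MP P (∑ v ∈ D, χ v * ((kap (uN f N μ S T (v * v0)) d).val : Om))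

/-- The units `u_n^(v)` are in `L_n`, and the Galois action (G3). -/
def S_G3 : Prop :=
  ∀ (f : ℕ) (μ : OO) (S : Finset ℂ) (N : ℕ) (T : Finset OO), Odd f → 7 ∣ f → Cop μ (2 * f) →
    IsHalf μ S → 2 ≤ N → IsRep f N T → ∀ v : OO, Cop v (2 * f) →
      uN f N μ S T v ∈ Ln f N ∧ uN f N μ S T v ≠ 0 ∧
      (∀ Q : Ideal ZZ, Npr Q → UP Q (uN f N μ S T v)) ∧
      (∀ v' : OO, ((f * 2 ^ N : ℕ) : OO) ∣ v' - v → uN f N μ S T v' = uN f N μ S T v) ∧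
      (∀ h : OO, HN f N h → uN f N μ S T (h * v) = uN f N μ S T v) ∧
      (∀ τ ∈ GK, ∀ a : OO, Psi τ (f * 2 ^ N) a → τ (uN f N μ S T v) = uN f N μ S T (a * v)) ∧
      (∀ T' : Finset OO, IsRep f N T' → uN f N μ S T' v = uN f N μ S T v) ∧
      ∀ T' : Finset OO, IsRep f (N + 1) T' → ∀ s ∈ GK, ∀ a : OO, Psi s (f * 2 ^ (N + 1)) a →
        HN f N a → ¬ HN f (N + 1) a → ∃ b ∈ Ln f N, b ≠ 0 ∧
          uN f (N + 1) μ S T' v * s (uN f (N + 1) μ S T' v) = uN f N μ S T v * b ^ 2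

/-! ## Part H (helper8, helper9) -/

/-- **Theorem H** (Thaine's argument for `p = 2`). `Sg` is a system of representatives in `G_K` of
`Gal(L_n/K)`. -/
def S_H : Prop :=
  ∀ (f : ℕ) (μ : OO) (S : Finset ℂ) (N : ℕ) (T : Finset OO), Odd f → 7 ∣ f → Cop μ (2 * f) →
    IsHalf μ S → 2 ≤ N → IsRep f N T → ∀ v : OO, Cop v (2 * f) →
    ∀ g ∈ VV 2 (Loc 2) (Ln f N).fixingSubgroup,
    ∀ (P : Ideal ZZ) (d : Gal(Om/ℚ)), Npr P → MP P 2 → (∀ x : ZZ, x ∈ P → d • x ∈ P) →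
      d ∈ (Ln f N).fixingSubgroup → (∀ i : Om, i ^ 2 = -1 → d i = i) →
    ∀ Sg : Finset Gal(Om/ℚ), (∀ s ∈ Sg, s ∈ GK) →
      (∀ τ ∈ GK, ∃ s ∈ Sg, s⁻¹ * τ ∈ (Ln f N).fixingSubgroup) →
      (∀ s ∈ Sg, ∀ s' ∈ Sg, s⁻¹ * s' ∈ (Ln f N).fixingSubgroup → s = s') →
    ∀ τ ∈ (Ln f N).fixingSubgroup,
      ∑ s ∈ Sg, kap (s⁻¹ (uN f N μ S T v)) d * g (s * τ * s⁻¹) = 0

/-- **H3 - H4** (helper9): the element `kk`. `q` is a prime of `F = L_n` below `Q`, of absolute norm the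
prime `l`; `φ` is a Frobenius element at `Q`. -/
def S_KK : Prop :=
  ∀ (f : ℕ) (μ : OO) (S : Finset ℂ) (N : ℕ) (T : Finset OO), Odd f → 7 ∣ f → Cop μ (2 * f) →
    IsHalf μ S → 2 ≤ N → IsRep f N T → ∀ v : OO, Cop v (2 * f) → ∀ [NumberField (Ln f N)],
    ∀ l : ℕ, l.Prime → l % 4 = 1 → l.Coprime (7 * f * (Nm μ).toNat) →
    ∀ Q : Ideal ZZ, Npr Q → (l : ZZ) ∈ Q → Nat.card (𝓞 (Ln f N) ⧸ Q.comap (iO (Ln f N))) = l →
    ∀ φ : Gal(Om/ℚ), IsFr (Ln f N) Q φ →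
      ∃ k : Ln f N, k ≠ 0 ∧
        (∀ (q' : HeightOneSpectrum (𝓞 (Ln f N))) (Q' : Ideal ZZ), Ab (Ln f N) Q' q' → ¬ MP Q' 2 →
          ¬ (∃ s ∈ GK, Q'.comap (iO (Ln f N)) = (s • Q).comap (iO (Ln f N))) →
          (2 : ℤ) ∣ vl (Ln f N) q' k) ∧
        ∀ s ∈ GK, ∀ q' : HeightOneSpectrum (𝓞 (Ln f N)),
          q'.asIdeal = (s • Q).comap (iO (Ln f N)) →
          ((vl (Ln f N) q' k : ℤ) : ZMod 2) = kap (s⁻¹ (uN f N μ S T v)) φ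

/-! ## Part I (helper55) -/

/-- The result for the fields `L`. -/
def S_I : Prop := ∀ f : ℕ, Odd f → 7 ∣ f → XFinGen 2 (cyc 2 (Lf f))

end Pool.Agent.DI
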