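import Pool.Agent.Lib.DI.Defs
import Pool.Agent.Lib.FW.SpecG

set_option autoImplicit false

/-!
# Theorem DI: the valuation ring `V_P` of a prime `P` of `ZZ`

`VP P` is a valuation ring of `Om` which contains `ZZ`, `MP P` its maximal ideal, `UP P` its units.
-/

open scoped Pointwise

noncomputable section

namespace Pool.Agent.DI

open Pool.Agent.MuZ Pool.Agent.FW NumberField IsDedekindDomain

section basic

variable {P : Ideal ZZ}

theorem VP.coe [hP : P.IsPrime] (a : ZZ) : VP P (a : Om) :=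
  ⟨a, 1, hP.one_notMem, by simp⟩

theorem VP.zero [hP : P.IsPrime] : VP P 0 := ⟨0, 1, hP.one_notMem, by simp⟩

theorem VP.one [hP : P.IsPrime] : VP P 1 := ⟨1, 1, hP.one_notMem, by simp⟩

theorem VP.mul [hP : P.IsPrime] {x y : Om} (hx : VP P x) (hy : VP P y) : VP P (x * y) := by
  obtain ⟨a, b, hb, h⟩ := hx
  obtain ⟨c, d, hd, h'⟩ := hy
  refine ⟨a * c, b * d, fun hmem => ?_, ?_⟩
  · rcases hP.mem_or_mem hmem with h1 | h1
    · exact hb h1
    · exact hd h1
  · push_cast
    rw [← h, ← h']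
    ring

theorem VP.add [hP : P.IsPrime] {x y : Om} (hx : VP P x) (hy : VP P y) : VP P (x + y) := by
  obtain ⟨a, b, hb, h⟩ := hx
  obtain ⟨c, d, hd, h'⟩ := hy
  refine ⟨a * d + c * b, b * d, fun hmem => ?_, ?_⟩
  · rcases hP.mem_or_mem hmem with h1 | h1
    · exact hb h1
    · exact hd h1
  · push_cast
    rw [← h, ← h']
    ring

theorem VP.neg {x : Om} (hx : VP P x) : VP P (-x) := by
  obtain ⟨a, b, hb, h⟩ := hx
  exact ⟨-a, b, hb, by push_cast; rw [← h]; ring⟩

theorem VP.sub [hP : P.IsPrime] {x y : Om} (hx : VP P x) (hy : VP P y) : VP P (x - y) := by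
  rw [sub_eq_add_neg]
  exact hx.add hy.neg

theorem VP.pow [hP : P.IsPrime] {x : Om} (hx : VP P x) (n : ℕ) : VP P (x ^ n) := by
  induction n with
  | zero => rw [pow_zero]; exact VP.one
  | succ n ih => rw [pow_succ]; exact ih.mul hx

theorem VP.prod [hP : P.IsPrime] {ι : Type*} (s : Finset ι) (f : ι → Om)
    (h : ∀ i ∈ s, VP P (f i)) : VP P (∏ i ∈ s, f i) := by
  classical
  induction s using Finset.induction_on with
  | empty => rw [Finset.prod_empty]; exact VP.one
  | insert a s ha ih =>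
    rw [Finset.prod_insert ha]
    exact (h a (Finset.mem_insert_self a s)).mul
      (ih fun i hi => h i (Finset.mem_insert_of_mem hi))

theorem VP.sum [hP : P.IsPrime] {ι : Type*} (s : Finset ι) (f : ι → Om)
    (h : ∀ i ∈ s, VP P (f i)) : VP P (∑ i ∈ s, f i) := by
  classical
  induction s using Finset.induction_on with
  | empty => rw [Finset.sum_empty]; exact VP.zero
  | insert a s ha ih =>
    rw [Finset.sum_insert ha]
    exact (h a (Finset.mem_insert_self a s)).add
      (ih fun i hi => h i (Finset.mem_insert_of_mem hi))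

theorem VP.int [hP : P.IsPrime] (n : ℤ) : VP P (n : Om) := by
  have := VP.coe (P := P) (n : ZZ)
  simpa using this

theorem VP.nat [hP : P.IsPrime] (n : ℕ) : VP P (n : Om) := by
  have := VP.coe (P := P) (n : ZZ)
  simpa using this

theorem VP.integral [hP : P.IsPrime] {x : Om} (hx : IsIntegral ℤ x) : VP P x :=
  VP.coe (P := P) ⟨x, hx⟩

theorem MP.vp {x : Om} (hx : MP P x) : VP P x := by
  obtain ⟨a, b, _, hb, h⟩ := hx
  exact ⟨a, b, hb, h⟩

theorem MP.zero [hP : P.IsPrime] : MP P 0 := ⟨0, 1, P.zero_mem, hP.one_notMem, by simp⟩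

theorem MP.add [hP : P.IsPrime] {x y : Om} (hx : MP P x) (hy : MP P y) : MP P (x + y) := by
  obtain ⟨a, b, ha, hb, h⟩ := hx
  obtain ⟨c, d, hc, hd, h'⟩ := hy
  refine ⟨a * d + c * b, b * d, P.add_mem (P.mul_mem_right _ ha) (P.mul_mem_right _ hc),
    fun hmem => ?_, ?_⟩
  · rcases hP.mem_or_mem hmem with h1 | h1
    · exact hb h1
    · exact hd h1
  · push_cast
    rw [← h, ← h']
    ring

theorem MP.neg {x : Om} (hx : MP P x) : MP P (-x) := by
  obtain ⟨a, b, ha, hb, h⟩ := hx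
  exact ⟨-a, b, P.neg_mem ha, hb, by push_cast; rw [← h]; ring⟩

theorem MP.sub [hP : P.IsPrime] {x y : Om} (hx : MP P x) (hy : MP P y) : MP P (x - y) := by
  rw [sub_eq_add_neg]
  exact hx.add hy.neg

theorem MP.mul_left [hP : P.IsPrime] {x y : Om} (hx : VP P x) (hy : MP P y) : MP P (x * y) := by
  obtain ⟨a, b, hb, h⟩ := hx
  obtain ⟨c, d, hc, hd, h'⟩ := hy
  refine ⟨a * c, b * d, P.mul_mem_left _ hc, fun hmem => ?_, ?_⟩
  · rcases hP.mem_or_mem hmem with h1 | h1
    · exact hb h1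
    · exact hd h1
  · push_cast
    rw [← h, ← h']
    ring

theorem MP.mul_right [hP : P.IsPrime] {x y : Om} (hx : MP P x) (hy : VP P y) : MP P (x * y) := by
  rw [mul_comm]
  exact MP.mul_left hy hx

theorem MP.sum [hP : P.IsPrime] {ι : Type*} (s : Finset ι) (f : ι → Om)
    (h : ∀ i ∈ s, MP P (f i)) : MP P (∑ i ∈ s, f i) := by
  classical
  induction s using Finset.induction_on with
  | empty => rw [Finset.sum_empty]; exact MP.zero
  | insert a s ha ih =>
    rw [Finset.sum_insert ha]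
    exact (h a (Finset.mem_insert_self a s)).add
      (ih fun i hi => h i (Finset.mem_insert_of_mem hi))

theorem MP.coe_iff [hP : P.IsPrime] (a : ZZ) : MP P (a : Om) ↔ a ∈ P := by
  constructor
  · rintro ⟨c, d, hc, hd, h⟩
    have h1 : a * d = c := by
      apply Subtype.ext
      push_cast
      exact h
    have h2 : a * d ∈ P := by rw [h1]; exact hc
    exact (hP.mem_or_mem h2).resolve_right hd
  · intro ha
    exact ⟨a, 1, ha, hP.one_notMem, by simp⟩

theorem MP.one_not [hP : P.IsPrime] : ¬ MP P 1 := by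
  intro h
  have h1 : MP P ((1 : ZZ) : Om) := by simpa using h
  exact hP.one_notMem ((MP.coe_iff 1).1 h1)

theorem MP.nat_iff [hP : P.IsPrime] (n : ℕ) : MP P (n : Om) ↔ (n : ZZ) ∈ P := by
  rw [← MP.coe_iff]; simp

theorem VP.inv {x : Om} (hx : VP P x) (hx' : ¬ MP P x) : VP P x⁻¹ := by
  obtain ⟨a, b, hb, h⟩ := hx
  have ha : a ∉ P := fun ha => hx' ⟨a, b, ha, hb, h⟩
  by_cases hx0 : x = 0
  · subst hx0
    refine ⟨a, b, hb, ?_⟩
    rw [inv_zero]
    exact h
  · refine ⟨b, a, ha, ?_⟩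
    rw [← h, inv_mul_cancel_left₀ hx0]

/-- A product is in the maximal ideal only if one of the factors is. -/
theorem MP.mul_cases [hP : P.IsPrime] {x y : Om} (hx : VP P x) (_hy : VP P y)
    (h : MP P (x * y)) :
    MP P x ∨ MP P y := by
  by_contra hcon
  rw [not_or] at hcon
  have hx0 : x ≠ 0 := fun h0 => hcon.1 (by rw [h0]; exact MP.zero)
  have h1 := MP.mul_left (hx.inv hcon.1) h
  rw [inv_mul_cancel_left₀ hx0] at h1
  exact hcon.2 h1

end basic

section units

variable {P : Ideal ZZ}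

theorem UP.ne_zero [hP : P.IsPrime] {x : Om} (hx : UP P x) : x ≠ 0 := by
  rintro rfl
  exact hx.2 MP.zero

theorem UP.one [hP : P.IsPrime] : UP P 1 := ⟨VP.one, MP.one_not⟩

theorem UP.inv [hP : P.IsPrime] {x : Om} (hx : UP P x) : UP P x⁻¹ := by
  refine ⟨hx.1.inv hx.2, fun h => ?_⟩
  have h1 := MP.mul_left hx.1 h
  rw [mul_inv_cancel₀ hx.ne_zero] at h1
  exact MP.one_not h1

theorem UP.mul [hP : P.IsPrime] {x y : Om} (hx : UP P x) (hy : UP P y) : UP P (x * y) :=
  ⟨hx.1.mul hy.1, fun h => (MP.mul_cases hx.1 hy.1 h).elim hx.2 hy.2⟩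

theorem UP.div [hP : P.IsPrime] {x y : Om} (hx : UP P x) (hy : UP P y) : UP P (x / y) := by
  rw [div_eq_mul_inv]
  exact hx.mul hy.inv

theorem UP.neg {x : Om} (hx : UP P x) : UP P (-x) :=
  ⟨hx.1.neg, fun h => hx.2 (by simpa using h.neg)⟩

theorem UP.pow [hP : P.IsPrime] {x : Om} (hx : UP P x) (n : ℕ) : UP P (x ^ n) := by
  induction n with
  | zero => rw [pow_zero]; exact UP.one
  | succ n ih => rw [pow_succ]; exact ih.mul hx

theorem UP.prod [hP : P.IsPrime] {ι : Type*} (s : Finset ι) (f : ι → Om)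
    (h : ∀ i ∈ s, UP P (f i)) : UP P (∏ i ∈ s, f i) := by
  classical
  induction s using Finset.induction_on with
  | empty => rw [Finset.prod_empty]; exact UP.one
  | insert a s ha ih =>
    rw [Finset.prod_insert ha]
    exact (h a (Finset.mem_insert_self a s)).mul
      (ih fun i hi => h i (Finset.mem_insert_of_mem hi))

/-- `x` is a unit iff `x ≠ 0` and `x`, `x⁻¹` are in `V_P`. -/
theorem UP.iff [hP : P.IsPrime] {x : Om} : UP P x ↔ x ≠ 0 ∧ VP P x ∧ VP P x⁻¹ := by
  constructor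
  · intro h
    exact ⟨h.ne_zero, h.1, h.inv.1⟩
  · rintro ⟨h0, h1, h2⟩
    refine ⟨h1, fun h => ?_⟩
    have h3 := MP.mul_left h2 h
    rw [inv_mul_cancel₀ h0] at h3
    exact MP.one_not h3

/-- The units are determined modulo the maximal ideal. -/
theorem UP.congr [hP : P.IsPrime] {x y : Om} (hx : UP P x) (h : MP P (y - x)) : UP P y := by
  have e : y = x + (y - x) := by ring
  refine ⟨by rw [e]; exact hx.1.add h.vp, fun hy => hx.2 ?_⟩
  have e' : x = y - (y - x) := by ring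
  rw [e']
  exact hy.sub h

end units

section val

theorem numberField_adjoin (x : Om) :
    NumberField (IntermediateField.adjoin ℚ {x} : IntermediateField ℚ Om) := by
  have h1 : IsIntegral ℚ x := (Algebra.IsAlgebraic.isAlgebraic x).isIntegral
  have h2 : FiniteDimensional ℚ (IntermediateField.adjoin ℚ {x} : IntermediateField ℚ Om) :=
    IntermediateField.adjoin.finiteDimensional h1
  exact { to_charZero := inferInstance, to_finiteDimensional := h2 }

/-- `V_P` is a valuation ring. -/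
theorem VP.or_inv {P : Ideal ZZ} [hP : P.IsPrime] (x : Om) : VP P x ∨ MP P x⁻¹ := by
  classical
  by_cases hx0 : x = 0
  · left; rw [hx0]; exact VP.zero
  set E : IntermediateField ℚ Om := IntermediateField.adjoin ℚ {x} with hE
  have : NumberField E := numberField_adjoin x
  have hxE : x ∈ E := IntermediateField.mem_adjoin_simple_self ℚ x
  set y : E := ⟨x, hxE⟩ with hy
  have hy0 : y ≠ 0 := fun h => hx0 (congrArg Subtype.val h)
  have hfrac : ∀ (z : E) (a d : 𝓞 E), z * algebraMap (𝓞 E) E d = algebraMap (𝓞 E) E a →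
      ((z : E) : Om) * ((iO E d : ZZ) : Om) = ((iO E a : ZZ) : Om) := by
    intro z a d h
    have h1 := congrArg (fun t : E => (t : Om)) h
    exact h1
  by_cases hp : P.comap (iO E) = ⊥
  · obtain ⟨a, d, hd, h⟩ := IsFractionRing.div_surjective (A := 𝓞 E) y
    have hd0 : d ≠ 0 := nonZeroDivisors.ne_zero hd
    left
    refine ⟨iO E a, iO E d, fun hmem => hd0 ?_, hfrac y a d ?_⟩
    · have : d ∈ P.comap (iO E) := hmem
      rw [hp] at this
      exact this
    · rw [← h]
      refine div_mul_cancel₀ _ ?_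
      intro h0
      exact hd0 (FaithfulSMul.algebraMap_injective (𝓞 E) E (by rw [h0, map_zero]))
  · set v : HeightOneSpectrum (𝓞 E) := ⟨P.comap (iO E), inferInstance, hp⟩ with hv
    rcases le_or_gt (v.valuation E y) 1 with h1 | h1
    · obtain ⟨a, d, hd⟩ := v.exists_primeCompl_mul_eq_of_integer y h1
      left
      exact ⟨iO E a, iO E d, fun h => d.2 h, hfrac y a d hd⟩
    · have h2 : v.valuation E y⁻¹ < 1 := by
        rw [map_inv₀]
        exact inv_lt_one_of_one_lt₀ h1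
      obtain ⟨a, d, hd⟩ := v.exists_primeCompl_mul_eq_of_integer y⁻¹ h2.le
      right
      refine ⟨iO E a, iO E d, ?_, fun h => d.2 h, ?_⟩
      · have h3 : v.valuation E (algebraMap (𝓞 E) E a) < 1 := by
          rw [← hd, map_mul]
          calc v.valuation E y⁻¹ * v.valuation E (algebraMap (𝓞 E) E (d : 𝓞 E))
              ≤ v.valuation E y⁻¹ * 1 := by
                gcongr
                exact v.valuation_le_one (d : 𝓞 E)
            _ < 1 := by rw [mul_one]; exact h2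
        exact (HeightOneSpectrum.valuation_lt_one_iff_mem (K := E) v a).1 h3
      · have h4 := hfrac y⁻¹ a d hd
        have h5 : ((y⁻¹ : E) : Om) = x⁻¹ := rfl
        rw [h5] at h4
        exact h4

theorem VP.or_vp_inv {P : Ideal ZZ} [hP : P.IsPrime] (x : Om) : VP P x ∨ VP P x⁻¹ :=
  (VP.or_inv x).imp_right MP.vp

theorem VP.not_iff {P : Ideal ZZ} [hP : P.IsPrime] {x : Om} : ¬ VP P x ↔ x ≠ 0 ∧ MP P x⁻¹ := by
  constructor
  · intro h
    refine ⟨?_, (VP.or_inv x).resolve_left h⟩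
    rintro rfl
    exact h VP.zero
  · rintro ⟨h0, h1⟩ h2
    have h3 := MP.mul_left h2 h1
    rw [mul_inv_cancel₀ h0] at h3
    exact MP.one_not h3

/-- `V_P` is integrally closed (powers). -/
theorem VP.of_pow {P : Ideal ZZ} [hP : P.IsPrime] {x : Om} {n : ℕ} (hn : 0 < n)
    (h : VP P (x ^ n)) : VP P x := by
  by_contra hx
  obtain ⟨h0, h1⟩ := VP.not_iff.1 hx
  have h2 : MP P (x⁻¹ ^ n) := by
    obtain ⟨m, rfl⟩ : ∃ m, n = m + 1 := ⟨n - 1, by omega⟩
    rw [pow_succ]
    exact MP.mul_left (h1.vp.pow m) h1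
  have h3 := MP.mul_left h h2
  rw [← mul_pow, mul_inv_cancel₀ h0, one_pow] at h3
  exact MP.one_not h3

theorem MP.of_pow {P : Ideal ZZ} [hP : P.IsPrime] {x : Om} {n : ℕ} (h : MP P (x ^ n)) :
    MP P x := by
  by_contra hx
  have hn : 0 < n := by
    rcases Nat.eq_zero_or_pos n with rfl | h'
    · rw [pow_zero] at h
      exact absurd h MP.one_not
    · exact h'
  have h1 : VP P x := VP.of_pow hn h.vp
  exact (UP.pow ⟨h1, hx⟩ n).2 h

theorem UP.of_pow {P : Ideal ZZ} [hP : P.IsPrime] {x : Om} {n : ℕ} (hn : 0 < n)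
    (h : UP P (x ^ n)) : UP P x := by
  refine ⟨VP.of_pow hn h.1, fun h1 => h.2 ?_⟩
  obtain ⟨m, rfl⟩ : ∃ m, n = m + 1 := ⟨n - 1, by omega⟩
  rw [pow_succ]
  exact MP.mul_left (h1.vp.pow m) h1

/-- The valuation rings are integrally closed. -/
theorem VP.of_integral {P : Ideal ZZ} [hP : P.IsPrime] {x : Om} (f : Polynomial Om)
    (hf : f.Monic) (hc : ∀ i, VP P (f.coeff i)) (h : f.eval x = 0) : VP P x := by
  by_contra hx
  obtain ⟨h0, h1⟩ := VP.not_iff.1 hx
  have h2 := Polynomial.eval_eq_sum_range (p := f) x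
  rw [h, Finset.sum_range_succ, hf.coeff_natDegree, one_mul] at h2
  have h3 : -1 = ∑ i ∈ Finset.range f.natDegree, f.coeff i * (x⁻¹) ^ (f.natDegree - i) := by
    have h4 : x ^ f.natDegree ≠ 0 := pow_ne_zero _ h0
    have h5 : (∑ i ∈ Finset.range f.natDegree, f.coeff i * (x⁻¹) ^ (f.natDegree - i)) *
        x ^ f.natDegree = ∑ i ∈ Finset.range f.natDegree, f.coeff i * x ^ i := by
      rw [Finset.sum_mul]
      refine Finset.sum_congr rfl fun i hi => ?_
      have hi' : i < f.natDegree := Finset.mem_range.1 hi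
      have h6 : x ^ f.natDegree = x ^ (f.natDegree - i) * x ^ i := by
        rw [← pow_add]; congr 1; omega
      rw [h6, mul_assoc, ← mul_assoc (x⁻¹ ^ (f.natDegree - i)), ← mul_pow, inv_mul_cancel₀ h0,
        one_pow, one_mul]
    have h7 : (∑ i ∈ Finset.range f.natDegree, f.coeff i * (x⁻¹) ^ (f.natDegree - i)) *
        x ^ f.natDegree = -1 * x ^ f.natDegree := by
      rw [h5]
      linear_combination -h2
    exact (mul_right_cancel₀ h4 h7).symm
  have h8 : MP P (-1) := by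
    rw [h3]
    refine MP.sum _ _ fun i hi => ?_
    have hi' : i < f.natDegree := Finset.mem_range.1 hi
    obtain ⟨m, hm⟩ : ∃ m, f.natDegree - i = m + 1 := ⟨f.natDegree - i - 1, by omega⟩
    rw [hm, pow_succ]
    exact MP.mul_left (hc i) (MP.mul_left (h1.vp.pow m) h1)
  have h9 := h8.neg
  rw [neg_neg] at h9
  exact MP.one_not h9

end val

section gal

variable {P : Ideal ZZ}

theorem smul_coe (σ : Gal(Om/ℚ)) (a : ZZ) : ((σ • a : ZZ) : Om) = σ (a : Om) := rfl

theorem smul_mem_smul_iff (σ : Gal(Om/ℚ)) (a : ZZ) : σ • a ∈ σ • P ↔ a ∈ P :=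
  Ideal.smul_mem_pointwise_smul_iff

theorem VP.smul (σ : Gal(Om/ℚ)) {x : Om} : VP (σ • P) (σ x) ↔ VP P x := by
  constructor
  · rintro ⟨a, b, hb, h⟩
    refine ⟨σ⁻¹ • a, σ⁻¹ • b, fun h1 => hb ?_, ?_⟩
    · have := (smul_mem_smul_iff (P := P) σ (σ⁻¹ • b)).2 h1
      rwa [smul_inv_smul] at this
    · have h2 := congrArg (fun t => σ⁻¹ t) h
      simp only [map_mul] at h2
      rw [← AlgEquiv.mul_apply, inv_mul_cancel, AlgEquiv.one_apply] at h2
      exact h2
  · rintro ⟨a, b, hb, h⟩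
    refine ⟨σ • a, σ • b, fun h1 => hb ((smul_mem_smul_iff σ b).1 h1), ?_⟩
    rw [smul_coe, smul_coe, ← map_mul, h]

theorem MP.smul (σ : Gal(Om/ℚ)) {x : Om} : MP (σ • P) (σ x) ↔ MP P x := by
  constructor
  · rintro ⟨a, b, ha, hb, h⟩
    refine ⟨σ⁻¹ • a, σ⁻¹ • b, ?_, fun h1 => hb ?_, ?_⟩
    · rw [← smul_mem_smul_iff (P := P) σ, smul_inv_smul]
      exact ha
    · have := (smul_mem_smul_iff (P := P) σ (σ⁻¹ • b)).2 h1
      rwa [smul_inv_smul] at this
    · have h2 := congrArg (fun t => σ⁻¹ t) h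
      simp only [map_mul] at h2
      rw [← AlgEquiv.mul_apply, inv_mul_cancel, AlgEquiv.one_apply] at h2
      exact h2
  · rintro ⟨a, b, ha, hb, h⟩
    refine ⟨σ • a, σ • b, (smul_mem_smul_iff σ a).2 ha, fun h1 => hb ((smul_mem_smul_iff σ b).1 h1), ?_⟩
    rw [smul_coe, smul_coe, ← map_mul, h]

theorem UP.smul (σ : Gal(Om/ℚ)) {x : Om} : UP (σ • P) (σ x) ↔ UP P x := by
  unfold UP
  rw [VP.smul, MP.smul]

theorem inertia_smul {ι : Gal(Om/ℚ)} (hι : ι ∈ P.inertia Gal(Om/ℚ)) (a : ZZ) : ι • a - a ∈ P :=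
  hι a

/-- The inertia group acts trivially on `V_P` modulo the maximal ideal. -/
theorem VP.inertia [hP : P.IsPrime] {ι : Gal(Om/ℚ)} (hι : ι ∈ P.inertia Gal(Om/ℚ)) {x : Om}
    (hx : VP P x) : MP P (ι x - x) := by
  obtain ⟨a, b, hb, h⟩ := hx
  have hb' : ι • b ∉ P := by
    intro h1
    apply hb
    have h2 := P.sub_mem h1 (inertia_smul hι b)
    simpa using h2
  refine ⟨(ι • a - a) * b - (ι • b - b) * a, b * (ι • b), ?_, fun hmem => ?_, ?_⟩
  · exact P.sub_mem (P.mul_mem_right _ (inertia_smul hι a)) (P.mul_mem_right _ (inertia_smul hι b))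
  · rcases hP.mem_or_mem hmem with h1 | h1
    · exact hb h1
    · exact hb' h1
  · have h3 : ι x * (ι (b : Om)) = ι (a : Om) := by rw [← map_mul, h]
    push_cast
    rw [smul_coe, smul_coe, ← h3, ← h]
    ring

/-- A Frobenius element acts as the `l`-th power on `V_P` modulo the maximal ideal. -/
theorem VP.frob [hP : P.IsPrime] {φ : Gal(Om/ℚ)} {l : ℕ}
    (hφ : ∀ a : ZZ, φ • a - a ^ l ∈ P) {x : Om} (hx : VP P x) : MP P (φ x - x ^ l) := by
  obtain ⟨a, b, hb, h⟩ := hx
  have hb1 : b ^ l ∉ P := fun h1 => hb (hP.mem_of_pow_mem l h1)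
  have hb' : φ • b ∉ P := by
    intro h1
    apply hb1
    have h2 := P.sub_mem h1 (hφ b)
    simpa using h2
  refine ⟨(φ • a - a ^ l) * b ^ l - (φ • b - b ^ l) * a ^ l, b ^ l * (φ • b), ?_,
    fun hmem => ?_, ?_⟩
  · exact P.sub_mem (P.mul_mem_right _ (hφ a)) (P.mul_mem_right _ (hφ b))
  · rcases hP.mem_or_mem hmem with h1 | h1
    · exact hb1 h1
    · exact hb' h1
  · have h3 : φ x * (φ (b : Om)) = φ (a : Om) := by rw [← map_mul, h]
    push_cast
    rw [smul_coe, smul_coe, ← h3, ← h]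
    ring

/-- The inertia group maps `V_P` to itself. -/
theorem VP.inertia_vp [hP : P.IsPrime] {ι : Gal(Om/ℚ)} (hι : ι ∈ P.inertia Gal(Om/ℚ)) {x : Om}
    (hx : VP P x) : VP P (ι x) := by
  have h := (VP.inertia hι hx).vp.add hx
  rwa [sub_add_cancel] at h

/-- An element of the decomposition group preserves `V_P`. -/
theorem VP.stab {σ : Gal(Om/ℚ)} (hσ : σ ∈ MulAction.stabilizer Gal(Om/ℚ) P) {x : Om} :
    VP P (σ x) ↔ VP P x := by
  have h := VP.smul (P := P) σ (x := x)
  rwa [MulAction.mem_stabilizer_iff.1 hσ] at h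

theorem MP.stab {σ : Gal(Om/ℚ)} (hσ : σ ∈ MulAction.stabilizer Gal(Om/ℚ) P) {x : Om} :
    MP P (σ x) ↔ MP P x := by
  have h := MP.smul (P := P) σ (x := x)
  rwa [MulAction.mem_stabilizer_iff.1 hσ] at h

end gal

end Pool.Agent.DI
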