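import Pool.Agent.Lib.DI.B.All
import Pool.Agent.Lib.DI.C.All
import Pool.Agent.Lib.DI.D.AllA
import Pool.Agent.Lib.DI.D.AllB
import Pool.Agent.Lib.DI.D.AllC
import Pool.Agent.Lib.DI.H3.All
import Pool.Agent.Lib.DI.E.All
import Pool.Agent.Lib.DI.E8.All
import Pool.Agent.Lib.DI.F.All
import Pool.Agent.Lib.DI.FH.All
import Pool.Agent.Lib.DI.G.All
import Pool.Agent.Lib.DI.G.L.All
import Pool.Agent.Lib.DI.T.All
import Pool.Agent.Lib.DI.PI.Top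

/-!
# Theorem DI: final assembly
-/

set_option autoImplicit false

noncomputable section

namespace Pool.Agent.DI

/-- Theorem DI from `S_D3` to `S_D6`. -/
theorem thmDI_D (D3 : S_D3) (D4 : S_D4) (D5 : S_D5) (D6 : S_D6) : ThmDI := by
  have D1 : S_D1 := tD1
  have D2 : S_D2 := tD2
  have D8 : S_D8 := tD8
  have D7 : S_D7 := tD7 D5
  have hB : E.InB := ⟨tB0, tB1, tB2, tB3, tB4, tB5, tB6, tB7, tB8, tB9, tB12, tB13, tA1⟩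
  have hD : E.InD := ⟨D1, D2, D4, D8⟩
  have E1 : S_E1 := E.tE1 hB
  have E2 : S_E2 := E.tE2 hB hD
  have E3 : S_E3 := E.tE3 hB hD
  have E4 : S_E4 := E.tE4 hB hD
  have E5 : S_E5 := E.tE5 hB
  have E6 : S_E6 := E.tE6 hB hD
  have E7 : S_E7 := E.tE7 hB hD
  have E8 : S_E8 := E.tE8 hB
  have E9 : S_E9 := E.tE9 hB hD
  have E15 : S_E15 := E.tE15 hB hD
  have C3 : S_C3 := C.iC3 tB11
  obtain ⟨_, E11, E12, E13, E14⟩ :=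
    tE10_14 tB0 tB2 tB3 tB4 tB5 tA0 tA2 C.iC1 C3 C.iC4 C.iC5 D1 E1 E5 E6 E8
  have hF : S_F := F.tF FH.aFH tA0 tA1 tB0 tB1 tB2 tB3 tB6 tB7 tB12 tB14 C.iC1 C.iC2 C.iC5 C.iC6
    E1 E3 E7 E8 E9 E11 E14
  have G3 : S_G3 := G.aG3 D5 D7 D8 E1 E15
  have G7 : G.S_G7 := G.aG7 tA0 tA2 tB2 tB4 tB7 tB10 D1 D5 D8 E1 E7 E8 E9 E11 E12 E13 E15 hF
  have hG : S_G := GL.tG E1 E6 E8 E9 tUHN FH.tUnr G3 G7
  have hKK : S_KK := H3.tKK tA0 tB2 tB3 D3 D5 D6 D7 D8 E1 E2 E4 E8 E9 E15 G3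
  have hH : S_H := tHmain hKK G3 E1 E4 E6 E8 E9 tUHN tUNm
  exact PI.thmDI_of tB1 tB2 tB3 tB4 tB5 tA1 tA2 E1 E6 E7 E8 E9 G3 hH hG

/-- **Theorem DI.** -/
theorem thmDI : ThmDI := thmDI_D tD3 tD4 tD5 tD6

end Pool.Agent.DI
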