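import Pool.Agent.Lib.MuZ.Spec

/-!
# Theorem DI: definitions

`O = ℤ[w]`, `w = π = (1 + √-7)/2`, `π π̄ = 2`; `E : y² + xy = x³ - x² - 2x - 1`;
`X`, `Y` the coordinates of the uniformisation `(ℂ - O)/O → E`, `E1` the function `E_1^*`.
`Om` is the algebraic closure of `ℚ`, `io` an embedding into `ℂ`, `ofC y` the element of `Om` with
`io (ofC y) = y` (if `y` is algebraic). See the notes 4042 - 4054.
-/

open scoped Pointwise Topology
open Filter

noncomputable section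

namespace Pool.Agent.DI

open Pool.Agent.MuZ

/-! ## The ring `O` -/

/-- The ring `O = ℤ[w]`, `w ^ 2 = w - 2`. -/
abbrev OO : Type := QuadraticAlgebra ℤ (-2) 1

/-- `π = w`. -/
def pO : OO := ⟨0, 1⟩

/-- `π̄ = 1 - w`. -/
def pbO : OO := ⟨1, -1⟩

/-- `√-7 = 2 w - 1`. -/
def s7 : OO := ⟨-1, 2⟩

/-- Complex conjugation on `O`. -/
def cjO (v : OO) : OO := ⟨v.re + v.im, -v.im⟩

/-- The norm. -/
def Nm (v : OO) : ℤ := v.re ^ 2 + v.re * v.im + 2 * v.im ^ 2

/-- The quadratic residue symbol modulo `√-7` (`w` is `4` modulo `√-7`). -/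
def eps (v : OO) : ℤ := jacobiSym (v.re + 4 * v.im) 7

/-- `v` is prime to `N`. -/
def Cop (v : OO) (N : ℕ) : Prop := IsCoprime (Nm v) (N : ℤ)

/-- `v` is in the 2-primary part `H_f` of `(O/f)^*`. -/
def Hf (f : ℕ) (v : OO) : Prop := Cop v f ∧ ∃ k : ℕ, (f : OO) ∣ v ^ 2 ^ k - 1

/-- `v` is in `H_N`: in `H_f` modulo `f`, and the norm is `±1` modulo `2 ^ N`. -/
def HN (f N : ℕ) (v : OO) : Prop :=
  Hf f v ∧ ((2 : ℤ) ^ N ∣ Nm v - 1 ∨ (2 : ℤ) ^ N ∣ Nm v + 1)

/-! ## The complex side -/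

/-- `w` as a complex number. -/
def wC : ℂ := ⟨1 / 2, √7 / 2⟩

theorem wC_sq : wC ^ 2 = wC - 2 := by
  have h : (√7 : ℝ) * √7 = 7 := Real.mul_self_sqrt (by norm_num)
  apply Complex.ext
  · simp only [wC, sq, Complex.mul_re, Complex.sub_re, Complex.re_ofNat]
    nlinarith [h]
  · simp only [wC, sq, Complex.mul_im, Complex.sub_im, Complex.im_ofNat]
    ring

/-- The value of `v` in a ring, at a root `t` of `t ^ 2 = t - 2`. -/
def evO {R : Type} [CommRing R] (t : R) (ht : t ^ 2 = t - 2) : OO →+* R where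
  toFun v := v.re + v.im * t
  map_one' := by
    change ((1 : ℤ) : R) + ((0 : ℤ) : R) * t = 1
    simp
  map_mul' v u := by
    have h1 : (v * u).re = v.re * u.re + -2 * v.im * u.im := QuadraticAlgebra.re_mul v u
    have h2 : (v * u).im = v.re * u.im + v.im * u.re + 1 * v.im * u.im := QuadraticAlgebra.im_mul v u
    rw [h1, h2]
    push_cast
    linear_combination (-(v.im : R) * u.im) * ht
  map_zero' := by
    change ((0 : ℤ) : R) + ((0 : ℤ) : R) * t = 0
    simp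
  map_add' v u := by
    have h1 : (v + u).re = v.re + u.re := rfl
    have h2 : (v + u).im = v.im + u.im := rfl
    rw [h1, h2]
    push_cast
    ring

/-- The embedding `O → ℂ`. -/
def toC : OO →+* ℂ := evO wC wC_sq

theorem toC_apply (v : OO) : toC v = v.re + v.im * wC := rfl

theorem indep_wC : LinearIndependent ℝ ![(1 : ℂ), wC] := by
  rw [LinearIndependent.pair_iff]
  intro s t h
  have hs : 0 < √(7 : ℝ) := Real.sqrt_pos.2 (by norm_num)
  have h1 := congrArg Complex.im h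
  simp only [wC, Complex.add_im, Complex.real_smul, Complex.mul_im, Complex.ofReal_re,
    Complex.ofReal_im, Complex.one_im, Complex.one_re, Complex.zero_im] at h1
  have h2 := congrArg Complex.re h
  simp only [wC, Complex.add_re, Complex.real_smul, Complex.mul_re, Complex.ofReal_re,
    Complex.ofReal_im, Complex.one_im, Complex.one_re, Complex.zero_re] at h2
  have ht : t = 0 := by
    have h3 : t * √(7 : ℝ) = 0 := by linarith
    rcases mul_eq_zero.1 h3 with h4 | h4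
    · exact h4
    · exact absurd h4 hs.ne'
  subst ht
  exact ⟨by linarith, rfl⟩

/-- The lattice `O` in `ℂ`. -/
def LO : PeriodPair where
  ω₁ := 1
  ω₂ := wC
  indep := indep_wC

/-- `Ω ^ 2`, where `Ω` is the period with `g₂(Ω O) = 35/4`, `g₃(Ω O) = 49/8`. -/
def Om2 : ℂ := 10 / 7 * (LO.g₃ / LO.g₂)

/-- The period `Ω`. -/
def OmC : ℂ := Om2 ^ (1 / 2 : ℂ)

/-- The coordinate `X(z) = ℘(Ω z; Ω O) + 1/4`. -/
def XC (z : ℂ) : ℂ := LO.weierstrassP z / OmC ^ 2 + 1 / 4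

/-- The coordinate `Y(z)`. -/
def YC (z : ℂ) : ℂ := (LO.derivWeierstrassP z / OmC ^ 3 - XC z) / 2

/-- The function `K_t(z) = ∑ (z + v)⁻¹ exp(- t |z + v|²)`. -/
def KtC (t : ℝ) (z : ℂ) : ℂ := ∑' v : OO, (z + toC v)⁻¹ * (Real.exp (-t * ‖z + toC v‖ ^ 2) : ℝ)

/-- `E_1(z) = (lim K_t(z)) / Ω`. -/
def EC (z : ℂ) : ℂ := limUnder (𝓝[>] (0 : ℝ)) (fun t => KtC t z) / OmC

/-- `z` is in the lattice. -/
def Lat (z : ℂ) : Prop := ∃ v : OO, z = toC v

/-- `z` is a torsion point: `z ∈ K`. -/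
def Tor (z : ℂ) : Prop := ∃ (v : OO) (n : ℕ), 0 < n ∧ z = toC v / n

/-- `e(z) = exp(2 π i z)`. -/
def ex (z : ℂ) : ℂ := Complex.exp (2 * Real.pi * Complex.I * z)

/-- The theta function `Th_ρ(z) = 1/2 ∑ ρ(v) v⁻¹ e(N v z)`. -/
def Th (ρ : OO → ℂ) (z : ℂ) : ℂ := 1 / 2 * ∑' v : OO, ρ v / toC v * ex (Nm v * z)

/-- `h_ρ(r) = lim Th_ρ(r + i y)`. -/
def hC (ρ : OO → ℂ) (r : ℚ) : ℂ :=
  limUnder (𝓝[>] (0 : ℝ)) (fun y => Th ρ (r + y * Complex.I))

/-! ## The algebraic side -/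

/-- The embedding `ι : Om → ℂ`. -/
def io : Om →+* ℂ := (IsAlgClosed.lift : Om →ₐ[ℚ] ℂ).toRingHom

/-- The element of `Om` with the image `y` in `ℂ` (`0` if `y` is not algebraic). -/
def ofC (y : ℂ) : Om := by
  classical
  exact if h : ∃ x : Om, io x = y then h.choose else 0

theorem io_inj : Function.Injective io := io.injective

theorem exists_io (y : ℂ) (hy : IsAlgebraic ℚ y) : ∃ x : Om, io x = y := by
  obtain ⟨p, hp, h0⟩ := hy
  have hs := IsAlgClosed.splits (p.map (algebraMap ℚ Om))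
  have hne : p.map (algebraMap ℚ Om) ≠ 0 := (Polynomial.map_ne_zero_iff (algebraMap ℚ Om).injective).2 hp
  have h1 : Polynomial.eval y ((p.map (algebraMap ℚ Om)).map io) = 0 := by
    rw [Polynomial.map_map, RingHom.ext_rat (io.comp (algebraMap ℚ Om)) (algebraMap ℚ ℂ)]
    rw [Polynomial.aeval_def] at h0
    rw [Polynomial.eval_map]
    exact h0
  have h2 := hs.map io
  rw [← Polynomial.IsRoot.def, ← Polynomial.mem_roots (Polynomial.map_ne_zero hne)] at h1
  rw [hs.roots_map io, Multiset.mem_map] at h1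
  obtain ⟨x, _, hx⟩ := h1
  exact ⟨x, hx⟩

theorem io_ofC (y : ℂ) (hy : IsAlgebraic ℚ y) : io (ofC y) = y := by
  have h := exists_io y hy
  unfold ofC
  rw [dif_pos h]
  exact h.choose_spec

theorem ofC_io (x : Om) : ofC (io x) = x := by
  have h : ∃ x' : Om, io x' = io x := ⟨x, rfl⟩
  unfold ofC
  rw [dif_pos h]
  exact io_inj h.choose_spec

/-- `w = π` in `Om`. -/
def wO : Om := ofC wC

theorem wC_alg : IsAlgebraic ℚ wC := by
  refine ⟨Polynomial.X ^ 2 - Polynomial.X + Polynomial.C 2, ?_, ?_⟩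
  · intro h
    have h1 := congrArg (fun q : Polynomial ℚ => q.coeff 2) h
    simp [Polynomial.coeff_X] at h1
  · simp only [map_add, map_sub, map_pow, Polynomial.aeval_X, Polynomial.aeval_C, wC_sq]
    simp

theorem io_wO : io wO = wC := io_ofC wC wC_alg

theorem wO_sq : wO ^ 2 = wO - 2 := by
  apply io_inj
  rw [map_pow, map_sub, io_wO, wC_sq, map_ofNat]

/-- The embedding `O → Om`. -/
def toO : OO →+* Om := evO wO wO_sq

theorem io_toO (v : OO) : io (toO v) = toC v := by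
  change io ((v.re : Om) + v.im * wO) = v.re + v.im * wC
  rw [map_add, map_mul, io_wO, map_intCast, map_intCast]

/-- The field `K = ℚ(√-7)`. -/
def KQ : IntermediateField ℚ Om := IntermediateField.adjoin ℚ {wO}

/-- The group `Gal(Om/K)`. -/
def GK : Subgroup Gal(Om/ℚ) := KQ.fixingSubgroup

/-- The algebraic number `X(z)`. -/
def xO (z : ℂ) : Om := ofC (XC z)

/-- The algebraic number `Y(z)`. -/
def yO (z : ℂ) : Om := ofC (YC z)

/-- The algebraic number `E_1(z)`. -/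
def eO (z : ℂ) : Om := ofC (EC z)

/-- The normalised coordinate `Z = (X - 1/4)/√-7` (model of discriminant `1`). -/
def zO (z : ℂ) : Om := (xO z - 1 / 4) / toO s7

/-- `η_ρ(r) = h_ρ(r) / Ω`. -/
def eta (ρ : OO → Om) (r : ℚ) : Om := ofC (hC (fun v => io (ρ v)) r / OmC)

/-- `x` is in the valuation ring `V_P` (the localisation of `ZZ` at `P`). -/
def VP (P : Ideal ZZ) (x : Om) : Prop := ∃ a b : ZZ, b ∉ P ∧ x * (b : Om) = (a : Om)

/-- `x` is in the maximal ideal of `V_P`. -/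
def MP (P : Ideal ZZ) (x : Om) : Prop := ∃ a b : ZZ, a ∈ P ∧ b ∉ P ∧ x * (b : Om) = (a : Om)

/-- `x` is a unit of `V_P`. -/
def UP (P : Ideal ZZ) (x : Om) : Prop := VP P x ∧ ¬ MP P x

/-- `x` is in `t V_P`. -/
def TP (P : Ideal ZZ) (t x : Om) : Prop := ∃ y : Om, VP P y ∧ x = t * y

/-- `P` is a nonzero prime of `ZZ` which contains `π`. -/
def AbPi (P : Ideal ZZ) : Prop := P.IsPrime ∧ P ≠ ⊥ ∧ MP P wO

/-- `σ` acts on the `N`-torsion as the multiplication by `a`. -/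
def Psi (τ : Gal(Om/ℚ)) (N : ℕ) (a : OO) : Prop :=
  Cop a N ∧ ∀ v : OO, τ (xO (toC v / N)) = xO (toC (a * v) / N) ∧
    τ (yO (toC v / N)) = yO (toC (a * v) / N)

/-- The field fixed by all `τ` in `Gal(Om/K)` which act on the `N`-torsion as the multiplication by
an element of `H`. -/
def FixH (N : ℕ) (H : OO → Prop) : IntermediateField ℚ Om where
  carrier := {x | ∀ τ ∈ GK, ∀ a : OO, Psi τ N a → H a → τ x = x}
  mul_mem' := by
    intro x y hx hy τ hτ a h1 h2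
    rw [map_mul, hx τ hτ a h1 h2, hy τ hτ a h1 h2]
  one_mem' := fun τ _ _ _ _ => map_one τ
  add_mem' := by
    intro x y hx hy τ hτ a h1 h2
    rw [map_add, hx τ hτ a h1 h2, hy τ hτ a h1 h2]
  zero_mem' := fun τ _ _ _ _ => map_zero τ
  algebraMap_mem' := fun r τ _ _ _ _ => τ.commutes r
  inv_mem' := by
    intro x hx τ hτ a h1 h2
    rw [map_inv₀, hx τ hτ a h1 h2]

/-- The field `L` for `f`. -/
def Lf (f : ℕ) : IntermediateField ℚ Om := FixH f (Hf f)

/-- The field `L_n`, `n = N - 2`. -/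
def Ln (f N : ℕ) : IntermediateField ℚ Om := FixH (f * 2 ^ N) (HN f N)

/-- A character of odd order of `(O/f)^*`, extended by `0`. -/
structure IsChi (f : ℕ) (χ : OO → Om) : Prop where
  per : ∀ v u : OO, χ (v + f * u) = χ v
  mul : ∀ v u : OO, χ (v * u) = χ v * χ u
  zero : ∀ v : OO, ¬ Cop v f → χ v = 0
  odd : ∃ m : ℕ, Odd m ∧ ∀ v : OO, Cop v f → χ v ^ m = 1

/-- `η_χ(r)`. -/
def etaX (χ : OO → Om) (r : ℚ) : Om := eta (fun v => (eps v : Om) * χ v) r

/-- A half system of `E[μ] - 0`. -/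
structure IsHalf (μ : OO) (S : Finset ℂ) : Prop where
  mem : ∀ u ∈ S, Lat (toC μ * u) ∧ ¬ Lat u
  ex : ∀ z : ℂ, Lat (toC μ * z) → ¬ Lat z → ∃ u ∈ S, Lat (z - u) ∨ Lat (z + u)
  uni : ∀ u ∈ S, ∀ u' ∈ S, Lat (u - u') ∨ Lat (u + u') → u = u'

/-- The function `Θ(z) = μ⁻¹ ∏ (Z(z) - Z(u))⁻¹`. -/
def Theta (μ : OO) (S : Finset ℂ) (z : ℂ) : Om := (toO μ)⁻¹ * ∏ u ∈ S, (zO z - zO u)⁻¹

/-- A set of representatives of `H_N / ±1` modulo `f 2^N`. -/
structure IsRep (f N : ℕ) (T : Finset OO) : Prop where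
  mem : ∀ h ∈ T, HN f N h
  ex : ∀ v : OO, HN f N v → ∃ h ∈ T, ((f * 2 ^ N : ℕ) : OO) ∣ v - h ∨ ((f * 2 ^ N : ℕ) : OO) ∣ v + h
  uni : ∀ h ∈ T, ∀ h' ∈ T, (((f * 2 ^ N : ℕ) : OO) ∣ h - h' ∨ ((f * 2 ^ N : ℕ) : OO) ∣ h + h') → h = h'

/-- The elliptic unit `u_n^(v)`, `n = N - 2`. -/
def uN (f N : ℕ) (μ : OO) (S : Finset ℂ) (T : Finset OO) (v : OO) : Om :=
  ∏ h ∈ T, Theta μ S (toC (h * v) / (f * 2 ^ N : ℕ))

/-- A square root. -/
def sqr (w : Om) : Om := (IsAlgClosed.exists_pow_nat_eq w (n := 2) (by norm_num)).choose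

theorem sqr_sq (w : Om) : sqr w ^ 2 = w :=
  (IsAlgClosed.exists_pow_nat_eq w (n := 2) (by norm_num)).choose_spec

/-- The Kummer character: `d √w = (-1)^(kap w d) √w`. -/
def kap (w : Om) (d : Gal(Om/ℚ)) : ZMod 2 := by
  classical
  exact if d (sqr w) = sqr w then 0 else 1

/-- The curve `E : y² + xy = x³ - x² - 2x - 1`. -/
def Ecurve : WeierstrassCurve Om := ⟨1, -1, 0, -2, -1⟩

open Classical in
/-- The field generated by the coordinates of all torsion points of `E` over `Om`. -/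
def TorField : IntermediateField ℚ Om :=
  IntermediateField.adjoin ℚ {a : Om | ∃ (x y : Om) (h : Ecurve.toAffine.Nonsingular x y) (n : ℕ),
    0 < n ∧ n • (WeierstrassCurve.Affine.Point.some x y h) = 0 ∧ (a = x ∨ a = y)}

/-- **Theorem DI.** -/
def ThmDI : Prop :=
  ∀ F : IntermediateField ℚ Om, FiniteDimensional ℚ F → F ≤ TorField → XFinGen 2 (cyc 2 F)

end Pool.Agent.DI
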