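import Pool.Agent.Lib.DI.Defs
import Pool.Agent.Lib.DI.PI.JPe
import Pool.Agent.Lib.MuZ.AsmA
import Pool.Agent.Lib.MuZ.Res
import Pool.Agent.Lib.MuZ.Ext
import Pool.Agent.Lib.MuZ.Alg
import Pool.Agent.Lib.MuZ.Cliff
import Pool.Agent.Lib.MuZ.Crit
import Pool.Agent.Lib.MuZ.Conj
import Pool.Agent.Lib.MuZ.Ram
import Pool.Agent.Lib.MuZ.Frob
import Pool.Agent.Lib.MuZ.Pow
import Pool.Agent.Lib.MuZ.Tot
import Pool.Agent.Lib.MuZ.Orb
import Pool.Agent.Lib.MuZ.Sup
import Pool.Agent.Lib.MuZ.Fld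
import Pool.Agent.Lib.MuZ.Fwd
import Pool.Agent.Lib.MuZ.Bwd

/-!
# Theorem DI: monotonicity and extensions of degree a power of two

`X(F^cyc)` is finitely generated if `F ≤ L` and `X(L^cyc)` is; and `X(L^cyc)` is if `L / F₀` is Galois of
degree a power of `2` and `X(F₀^cyc)` is (Iwasawa). So Theorem DI extends to all `F ≤ L`, `L / F₀` Galois
of degree a power of `2`, `F₀` inside the torsion field.
-/

open scoped Pointwise

noncomputable section

namespace Pool.Agent.DI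

open Pool.Agent.MuZ

/-- Monotonicity. -/
theorem mono (p : ℕ) [Fact p.Prime] (F L : IntermediateField ℚ Om) (hL : FiniteDimensional ℚ L)
    (hFL : F ≤ L) (hX : XFinGen p (cyc p L)) : XFinGen p (cyc p F) := by
  apply MuZ.bwd MuZ.sup
  have h1 := MuZ.fwd MuZ.fld p (cyc p L) hX
  refine MuZ.res Gal(Om/ℚ) p (Loc p) (cyc p L).fixingSubgroup (cyc p F).fixingSubgroup (opn L)
    ?_ ?_ h1
  · rw [fix_cyc, fix_cyc]
    exact inf_le_inf_right _ (IntermediateField.fixingSubgroup_le hFL)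
  · rw [fix_cyc, fix_cyc]
    change _ ⊓ L.fixingSubgroup ≤ _
    exact le_inf inf_le_right (inf_le_left.trans inf_le_right)

private theorem Top_gal (i : Algebra ℚ Om) : @IsGalois ℚ _ Om _ i := by
  have e : i = AlgebraicClosure.instAlgebra ℚ := Subsingleton.elim _ _
  subst e
  let j : Algebra ℚ Om := AlgebraicClosure.instAlgebra (R := ℚ) ℚ
  have h1 : @IsAlgClosure ℚ Om _ _ j _ :=
    inferInstanceAs (@IsAlgClosure ℚ (AlgebraicClosure ℚ) _ _ (AlgebraicClosure.instAlgebra (R := ℚ) ℚ) _)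
  have h2 : @Normal ℚ Om _ _ j := @IsAlgClosure.normal ℚ Om _ _ j h1
  have h3 : @Algebra.IsAlgebraic ℚ Om _ _ j := h1.isAlgebraic
  have h4 : @Algebra.IsSeparable ℚ Om _ _ j := inferInstance
  exact @IsGalois.mk _ _ _ _ j h4 h2

/-- Galois extensions of degree a power of `p`: every element of the Galois group has `p`-power
order. -/
theorem pow_fix (p : ℕ) (K L : IntermediateField ℚ Om) (hL : FiniteDimensional ℚ L) (hKL : K ≤ L)
    (hst : ∀ σ ∈ K.fixingSubgroup, ∀ x ∈ L, σ x ∈ L) (a : ℕ)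
    (hdeg : Module.finrank ℚ L = p ^ a * Module.finrank ℚ K) :
    ∀ σ ∈ K.fixingSubgroup, σ ^ p ^ a ∈ L.fixingSubgroup := by
  have hGal : IsGalois ℚ Om := Top_gal _
  have hle : L.fixingSubgroup ≤ K.fixingSubgroup := IntermediateField.fixingSubgroup_le hKL
  have hK : FiniteDimensional ℚ K := by
    have hpos : 0 < Module.finrank ℚ L := Module.finrank_pos
    rw [hdeg] at hpos
    exact Module.finite_of_finrank_pos (Nat.pos_of_mul_pos_left hpos)
  have hposK : 0 < Module.finrank ℚ K := Module.finrank_pos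
  have h1 := Subgroup.relIndex_mul_index hle
  rw [← IntermediateField.finrank_eq_fixingSubgroup_index,
    ← IntermediateField.finrank_eq_fixingSubgroup_index, hdeg] at h1
  have h2 : L.fixingSubgroup.relIndex K.fixingSubgroup = p ^ a := Nat.eq_of_mul_eq_mul_right hposK h1
  intro σ hσ
  have hn : (L.fixingSubgroup.subgroupOf K.fixingSubgroup).Normal := by
    refine ⟨fun n hn g => ?_⟩
    rw [Subgroup.mem_subgroupOf] at hn ⊢
    exact fix_normal K L hst (g : Gal(Om/ℚ)) (n : Gal(Om/ℚ)) g.2 hn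
  have h3 := Subgroup.pow_index_mem (L.fixingSubgroup.subgroupOf K.fixingSubgroup)
    (⟨σ, hσ⟩ : K.fixingSubgroup)
  have h4 : (L.fixingSubgroup.subgroupOf K.fixingSubgroup).index = p ^ a := h2
  rw [h4, Subgroup.mem_subgroupOf] at h3
  exact h3

/-- **Theorem DI, extended form.** -/
theorem ext2 (h : ThmDI) (F F0 L : IntermediateField ℚ Om) (hL : FiniteDimensional ℚ L)
    (hT : F0 ≤ TorField) (hF0 : F0 ≤ L) (hF : F ≤ L)
    (hst : ∀ σ ∈ F0.fixingSubgroup, ∀ x ∈ L, σ x ∈ L) (a : ℕ)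
    (hdeg : Module.finrank ℚ L = 2 ^ a * Module.finrank ℚ F0) : XFinGen 2 (cyc 2 F) := by
  have hF0f : FiniteDimensional ℚ F0 := by
    have hpos : 0 < Module.finrank ℚ L := Module.finrank_pos
    rw [hdeg] at hpos
    exact Module.finite_of_finrank_pos (Nat.pos_of_mul_pos_left hpos)
  have hA : ThmA := MuZ.thmA MuZ.res MuZ.ext MuZ.alg MuZ.cliff MuZ.crit MuZ.conj MuZ.ram MuZ.frob
    MuZ.pow MuZ.tot MuZ.orb MuZ.sup MuZ.fld MuZ.fwd MuZ.bwd
  have h1 : XFinGen 2 (cyc 2 L) :=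
    (PI.pJPe hA 2 F0 F0 L hL le_rfl hF0 hst ⟨a, pow_fix 2 F0 L hL hF0 hst a hdeg⟩).2
      (h F0 hF0f hT)
  exact mono 2 F L hL hF h1

end Pool.Agent.DI
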